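import Pool.Agent.V5helper78.IK.Stm

/-!
# PROJECT IK, job GAU: the gauge of a symmetric convex body is a norm

Written by helper18.
-/

set_option autoImplicit false

namespace Pool.Agent.V5helper18.IK.GAU

open MeasureTheory Set Filter Topology
open scoped ENNReal InnerProductSpace
open Pool.Agent.V5helper78.IK

theorem t_GAU : S_GAU := by
  intro n K hK hc hne hsym
  have h0 : K ∈ 𝓝 (0 : E n) := by
    obtain ⟨x, hx⟩ := hne
    have hKn : (Homeomorph.neg (E n)) '' K = K := by
      ext y
      constructor
      · rintro ⟨z, hz, rfl⟩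
        exact hsym z hz
      · intro hy
        exact ⟨-y, hsym y hy, by simp⟩
    have hnx : -x ∈ interior K := by
      have h1 : (Homeomorph.neg (E n)) '' interior K = interior K := by
        rw [Homeomorph.image_interior, hKn]
      rw [← h1]
      exact ⟨x, hx, by simp⟩
    have hmid := hc.interior hx hnx (by norm_num : (0 : ℝ) ≤ 1 / 2) (by norm_num : (0 : ℝ) ≤ 1 / 2)
      (by norm_num)
    have hz : (1 / 2 : ℝ) • x + (1 / 2 : ℝ) • (-x) = 0 := by
      rw [smul_neg, add_neg_cancel]
    rw [hz] at hmid
    exact mem_interior_iff_mem_nhds.mp hmid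
  have habs : Absorbent ℝ K := absorbent_nhds_zero h0
  refine ⟨⟨fun x y => gauge_add_le hc habs x y, ?_, continuous_gauge hc h0, ?_⟩, ?_⟩
  · intro r x
    rcases le_total 0 r with hr | hr
    · rw [gauge_smul_of_nonneg hr, abs_of_nonneg hr, smul_eq_mul]
    · have h1 : r • x = (-r) • (-x) := by simp
      rw [h1, gauge_smul_of_nonneg (neg_nonneg.mpr hr), gauge_neg hsym, abs_of_nonpos hr,
        smul_eq_mul]
  · obtain ⟨R, hR⟩ := hK.isBounded.subset_closedBall (0 : E n)
    have hR' : K ⊆ Metric.closedBall (0 : E n) (max R 1) :=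
      hR.trans (Metric.closedBall_subset_closedBall (le_max_left _ _))
    have hpos : 0 < max R 1 := lt_of_lt_of_le one_pos (le_max_right _ _)
    refine ⟨(max R 1)⁻¹, inv_pos.mpr hpos, fun x => ?_⟩
    have := le_gauge_of_subset_closedBall (x := x) habs hpos.le hR'
    rw [div_eq_inv_mul] at this
    exact this
  · ext x
    change x ∈ K ↔ gauge K x ≤ 1
    rw [gauge_le_one_iff_mem_closure hc h0, hK.isClosed.closure_eq]

end Pool.Agent.V5helper18.IK.GAU
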